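import Mathlib

/-! A semisimple Hopf algebra (in characteristic two) whose partial Hopf algebra is not
semisimple. -/

namespace Pool.Agent.Results.MP_57c94c_al.CharTwo

open scoped TensorProduct

universe u v w

set_option linter.unusedSectionVars false

section Def

variable (k : Type u) [Field k] (H : Type v) [Ring H] [HopfAlgebra k H]

/-- The linear map `h ↦ f h₍₁₎ * g h₍₂₎` (Sweedler notation) into an algebra `B`. -/
noncomputable def conv {B : Type w} [Ring B] [Algebra k B] (f g : H →ₗ[k] B) : H →ₗ[k] B :=
  LinearMap.mul' k B ∘ₗ TensorProduct.map f g ∘ₗ Coalgebra.comul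

/-- The generator of the tensor algebra given by `h`. -/
noncomputable def gen : H →ₗ[k] TensorAlgebra k H := TensorAlgebra.ι k

/-- The defining relations of the partial Hopf algebra. -/
inductive Rel : TensorAlgebra k H → TensorAlgebra k H → Prop
  | one : Rel (gen k H 1) 1
  | right (h l : H) :
      Rel (gen k H h * conv k H (gen k H) (gen k H ∘ₗ HopfAlgebra.antipode k) l)
        (conv k H (gen k H ∘ₗ LinearMap.mulLeft k h) (gen k H ∘ₗ HopfAlgebra.antipode k) l)
  | left (h l : H) :
      Rel (conv k H (gen k H) (gen k H ∘ₗ HopfAlgebra.antipode k) h * gen k H l)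
        (conv k H (gen k H) (gen k H ∘ₗ LinearMap.mulRight k l ∘ₗ HopfAlgebra.antipode k) h)

/-- The partial Hopf algebra `H_par`. -/
abbrev Hpar : Type (max u v) := RingQuot (Rel k H)

end Def

/-! ### The Hopf algebra of functions on a finite group -/

section Fn

variable (k : Type u) [Field k] (G : Type v) [Group G] [Fintype G] [DecidableEq G]

/-- Functions on `G` with values in `k`. -/
def Fn : Type (max u v) := G → k

noncomputable instance : CommRing (Fn k G) := inferInstanceAs (CommRing (G → k))
noncomputable instance : Algebra k (Fn k G) := inferInstanceAs (Algebra k (G → k))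

variable {k G}

/-- The indicator function of an element. -/
def pt (a : G) : Fn k G := fun x => if x = a then 1 else 0

/-- Left translate of a function. -/
def tr (a : G) : Fn k G →ₐ[k] Fn k G where
  toFun f := fun x => f (a * x)
  map_one' := rfl
  map_mul' _ _ := rfl
  map_zero' := rfl
  map_add' _ _ := rfl
  commutes' _ := rfl

lemma tr_apply (a : G) (f : Fn k G) (x : G) : tr a f x = f (a * x) := rfl

lemma pt_apply (a x : G) : (pt a : Fn k G) x = if x = a then 1 else 0 := rfl

lemma mul_apply (f g : Fn k G) (x : G) : (f * g) x = f x * g x := rfl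

lemma add_apply (f g : Fn k G) (x : G) : (f + g) x = f x + g x := rfl

lemma smul_apply (c : k) (f : Fn k G) (x : G) : (c • f) x = c * f x := rfl

lemma one_apply (x : G) : (1 : Fn k G) x = 1 := rfl

lemma sum_apply {ι : Type*} (s : Finset ι) (f : ι → Fn k G) (x : G) :
    (∑ i ∈ s, f i) x = ∑ i ∈ s, f i x := Finset.sum_apply x s f

@[ext] lemma Fn.ext {f g : Fn k G} (h : ∀ x, f x = g x) : f = g := funext h

lemma pt_mul (a : G) (f : Fn k G) : pt a * f = f a • pt a := by
  ext x
  rw [mul_apply, smul_apply, pt_apply]
  split_ifs with h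
  · rw [h]; ring
  · ring

lemma sum_pt : ∑ a : G, (pt a : Fn k G) = 1 := by
  ext x
  rw [sum_apply]
  simp [pt_apply, one_apply]

lemma decomp (f : Fn k G) : f = ∑ a : G, f a • pt a := by
  ext x
  rw [sum_apply, Finset.sum_eq_single x]
  · rw [smul_apply, pt_apply, if_pos rfl, mul_one]
  · intro b _ hb
    rw [smul_apply, pt_apply, if_neg (Ne.symm hb), mul_zero]
  · intro h
    exact absurd (Finset.mem_univ _) h

/-- The comultiplication. -/
noncomputable def co : Fn k G →ₗ[k] Fn k G ⊗[k] Fn k G where
  toFun f := ∑ a : G, pt a ⊗ₜ[k] tr a f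
  map_add' f g := by
    simp only [map_add, TensorProduct.tmul_add, Finset.sum_add_distrib]
  map_smul' c f := by
    simp only [map_smul, TensorProduct.tmul_smul, Finset.smul_sum, RingHom.id_apply]

lemma co_apply (f : Fn k G) : co f = ∑ a : G, pt a ⊗ₜ[k] tr a f := rfl

/-- The counit. -/
def cou : Fn k G →ₗ[k] k where
  toFun f := f 1
  map_add' _ _ := rfl
  map_smul' _ _ := rfl

lemma cou_apply (f : Fn k G) : cou f = f 1 := rfl

/-- The antipode. -/
def anti : Fn k G →ₗ[k] Fn k G where
  toFun f := fun x => f x⁻¹
  map_add' _ _ := rfl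
  map_smul' _ _ := rfl

lemma anti_apply (f : Fn k G) (x : G) : anti f x = f x⁻¹ := rfl

lemma tr_pt (b a : G) : tr b (pt a : Fn k G) = pt (b⁻¹ * a) := by
  ext x
  rw [tr_apply, pt_apply, pt_apply]
  congr 1
  rw [eq_iff_iff]
  constructor
  · intro h; rw [← h]; group
  · intro h; rw [h]; group

noncomputable instance : Coalgebra k (Fn k G) where
  comul := co
  counit := cou
  coassoc := by
    ext f
    simp only [LinearMap.comp_apply, co_apply, map_sum, LinearMap.rTensor_tmul,
      LinearMap.lTensor_tmul, TensorProduct.sum_tmul, TensorProduct.tmul_sum,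
      LinearEquiv.coe_coe, TensorProduct.assoc_tmul, tr_pt]
    rw [Finset.sum_comm]
    apply Finset.sum_congr rfl
    intro b _
    refine Fintype.sum_equiv (Equiv.mulLeft b⁻¹) _ _ (fun a => ?_)
    simp only [Equiv.coe_mulLeft]
    congr 2
    ext x
    rw [tr_apply, tr_apply, tr_apply]
    congr 1
    group
  rTensor_counit_comp_comul := by
    ext f
    simp only [LinearMap.comp_apply, co_apply, map_sum, LinearMap.rTensor_tmul, cou_apply,
      TensorProduct.mk_apply]
    rw [Finset.sum_eq_single (1 : G)]
    · rw [pt_apply, if_pos rfl]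
      congr 1
      ext x
      rw [tr_apply, one_mul]
    · intro b _ hb
      rw [pt_apply, if_neg (Ne.symm hb), TensorProduct.zero_tmul]
    · intro h
      exact absurd (Finset.mem_univ _) h
  lTensor_counit_comp_comul := by
    ext f
    simp only [LinearMap.comp_apply, co_apply, map_sum, LinearMap.lTensor_tmul, cou_apply,
      TensorProduct.mk_apply, LinearMap.flip_apply]
    rw [decomp f, TensorProduct.sum_tmul]
    apply Finset.sum_congr rfl
    intro a _
    rw [← decomp f, tr_apply, mul_one, TensorProduct.smul_tmul, smul_eq_mul, mul_one]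

noncomputable instance : Bialgebra k (Fn k G) :=
  Bialgebra.mk' k (Fn k G) rfl (fun {_ _} => rfl)
    (by
      change co (1 : Fn k G) = 1
      rw [co_apply, Algebra.TensorProduct.one_def]
      have h : (1 : Fn k G) ⊗ₜ[k] (1 : Fn k G) = (∑ a : G, (pt a : Fn k G)) ⊗ₜ[k] (1 : Fn k G) := by
        rw [sum_pt]
      rw [h, TensorProduct.sum_tmul]
      apply Finset.sum_congr rfl
      intro a _
      rw [map_one])
    (fun {f g} => by
      change co (f * g) = co f * co g
      simp only [co_apply, Finset.sum_mul, Finset.mul_sum, Algebra.TensorProduct.tmul_mul_tmul,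
        map_mul]
      apply Finset.sum_congr rfl
      intro a _
      rw [Finset.sum_eq_single a]
      · rw [pt_mul, pt_apply, if_pos rfl, one_smul]
      · intro b _ hb
        rw [pt_mul, pt_apply, if_neg (fun h => hb (by rw [h])), zero_smul,
          TensorProduct.zero_tmul]
      · intro h
        exact absurd (Finset.mem_univ _) h)

noncomputable instance : HopfAlgebra k (Fn k G) where
  antipode := anti
  mul_antipode_rTensor_comul := by
    apply LinearMap.ext
    intro f
    change LinearMap.mul' k (Fn k G) (anti.rTensor (Fn k G) (co f)) = algebraMap k (Fn k G) (f 1)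
    rw [co_apply, map_sum, map_sum]
    ext x
    rw [sum_apply, Finset.sum_eq_single x⁻¹]
    · rw [LinearMap.rTensor_tmul, LinearMap.mul'_apply, mul_apply, anti_apply, pt_apply,
        if_pos rfl, one_mul, tr_apply, inv_mul_cancel]
      rfl
    · intro b _ hb
      rw [LinearMap.rTensor_tmul, LinearMap.mul'_apply, mul_apply, anti_apply, pt_apply,
        if_neg (Ne.symm hb), zero_mul]
    · intro h
      exact absurd (Finset.mem_univ _) h
  mul_antipode_lTensor_comul := by
    apply LinearMap.ext
    intro f
    change LinearMap.mul' k (Fn k G) (anti.lTensor (Fn k G) (co f)) = algebraMap k (Fn k G) (f 1)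
    rw [co_apply, map_sum, map_sum]
    ext x
    rw [sum_apply, Finset.sum_eq_single x]
    · rw [LinearMap.lTensor_tmul, LinearMap.mul'_apply, mul_apply, anti_apply, pt_apply,
        if_pos rfl, one_mul, tr_apply, mul_inv_cancel]
      rfl
    · intro b _ hb
      rw [LinearMap.lTensor_tmul, LinearMap.mul'_apply, mul_apply, anti_apply, pt_apply,
        if_neg (Ne.symm hb), zero_mul]
    · intro h
      exact absurd (Finset.mem_univ _) h

lemma comul_eq (f : Fn k G) :
    (Coalgebra.comul f : Fn k G ⊗[k] Fn k G) = ∑ a : G, pt a ⊗ₜ[k] tr a f := rfl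

lemma antipode_eq : (HopfAlgebra.antipode k : Fn k G →ₗ[k] Fn k G) = anti := rfl

lemma conv_eq {B : Type w} [Ring B] [Algebra k B] (f g : Fn k G →ₗ[k] B) (h : Fn k G) :
    conv k (Fn k G) f g h = ∑ a : G, f (pt a) * g (tr a h) := by
  unfold conv
  rw [LinearMap.comp_apply, LinearMap.comp_apply, comul_eq, map_sum, map_sum]
  simp only [TensorProduct.map_tmul, LinearMap.mul'_apply]

lemma semisimple_fn : IsSemisimpleRing (Fn k G) :=
  inferInstanceAs (IsSemisimpleRing (G → k))

end Fn

/-! ### Partial representations from central idempotents -/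

section Rep

variable {k : Type u} [Field k] {G : Type v} [Group G] [Fintype G] [DecidableEq G]
  {L : Type w} [Group L] [Fintype L] [DecidableEq L] (q : L →* G)

/-- Functions on `G` act on the group algebra of `L`, which is graded by `G`. -/
noncomputable def diag : Fn k G →ₗ[k] MonoidAlgebra k L →ₗ[k] MonoidAlgebra k L :=
  LinearMap.mk₂ k (fun f n => ∑ g : L, MonoidAlgebra.single g (f (q g) * n.coeff g))
    (by
      intro f g n
      rw [← Finset.sum_add_distrib]
      apply Finset.sum_congr rfl
      intro x _
      rw [add_apply, add_mul, MonoidAlgebra.single_add])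
    (by
      intro c f n
      rw [Finset.smul_sum]
      apply Finset.sum_congr rfl
      intro x _
      rw [smul_apply, MonoidAlgebra.smul_single, smul_eq_mul, mul_assoc])
    (by
      intro f m n
      rw [← Finset.sum_add_distrib]
      apply Finset.sum_congr rfl
      intro x _
      rw [MonoidAlgebra.coeff_add, Finsupp.add_apply, mul_add, MonoidAlgebra.single_add])
    (by
      intro c f n
      rw [Finset.smul_sum]
      apply Finset.sum_congr rfl
      intro x _
      rw [MonoidAlgebra.coeff_smul, Finsupp.smul_apply, MonoidAlgebra.smul_single, smul_eq_mul,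
        smul_eq_mul]
      congr 1
      ring)

lemma diag_single (f : Fn k G) (x : L) (c : k) :
    diag q f (MonoidAlgebra.single x c) = MonoidAlgebra.single x (f (q x) * c) := by
  change ∑ g : L, MonoidAlgebra.single g (f (q g) * (MonoidAlgebra.single x c).coeff g) = _
  rw [Finset.sum_eq_single x]
  · rw [MonoidAlgebra.coeff_single, Finsupp.single_eq_same]
  · intro b _ hb
    rw [MonoidAlgebra.coeff_single, Finsupp.single_apply, if_neg (Ne.symm hb), mul_zero,
      MonoidAlgebra.single_zero]
  · intro h
    exact absurd (Finset.mem_univ _) h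

lemma diag_mul (f g : Fn k G) (n : MonoidAlgebra k L) :
    diag q (f * g) n = diag q f (diag q g n) := by
  induction n using MonoidAlgebra.induction_linear with
  | zero => simp only [map_zero]
  | add x y hx hy => simp only [map_add, hx, hy]
  | single x c => rw [diag_single, diag_single, diag_single, mul_apply, mul_assoc]

lemma diag_one (n : MonoidAlgebra k L) : diag q (1 : Fn k G) n = n := by
  induction n using MonoidAlgebra.induction_linear with
  | zero => simp only [map_zero]
  | add x y hx hy => simp only [map_add, hx, hy]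
  | single x c => rw [diag_single, one_apply, one_mul]

lemma key (e n : MonoidAlgebra k L) (l : Fn k G) :
    ∑ a : G, diag q (pt a) (e * diag q (anti (tr a l)) n) = diag q l e * n := by
  induction n using MonoidAlgebra.induction_linear with
  | zero => simp only [map_zero, mul_zero, Finset.sum_const_zero]
  | add x y hx hy => simp only [map_add, mul_add, Finset.sum_add_distrib, hx, hy]
  | single x c =>
    induction e using MonoidAlgebra.induction_linear with
    | zero => simp only [map_zero, zero_mul, Finset.sum_const_zero]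
    | add y z hy hz => simp only [map_add, add_mul, Finset.sum_add_distrib, hy, hz]
    | single s d =>
      simp only [diag_single, MonoidAlgebra.single_mul_single]
      rw [Finset.sum_eq_single (q (s * x))]
      · congr 1
        rw [pt_apply, if_pos rfl, anti_apply, tr_apply, map_mul, mul_inv_cancel_right]
        ring
      · intro b _ hb
        rw [pt_apply, if_neg (Ne.symm hb), zero_mul, MonoidAlgebra.single_zero]
      · intro h
        exact absurd (Finset.mem_univ _) h

/-- The summand cut out by `e`. -/
def piece (e : MonoidAlgebra k L) : Submodule k (MonoidAlgebra k L) where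
  carrier := {n | e * n = n}
  add_mem' := by
    intro a b ha hb
    rw [Set.mem_ofPred_eq] at *
    rw [mul_add, ha, hb]
  zero_mem' := mul_zero e
  smul_mem' := by
    intro c a ha
    rw [Set.mem_ofPred_eq] at *
    rw [mul_smul_comm, ha]

variable {e : MonoidAlgebra k L} (he : e * e = e)

/-- The partial representation of the algebra of functions on `G`. -/
noncomputable def rep : Fn k G →ₗ[k] Module.End k (piece e) :=
  LinearMap.mk₂ k (fun h m => (⟨e * diag q h (m : MonoidAlgebra k L), by
      change e * (e * _) = e * _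
      rw [← mul_assoc, he]⟩ : piece e))
    (by
      intro f g n
      apply Subtype.ext
      simp only [map_add, LinearMap.add_apply, mul_add, Submodule.coe_add])
    (by
      intro c f n
      apply Subtype.ext
      simp only [map_smul, LinearMap.smul_apply, mul_smul_comm, Submodule.coe_smul])
    (by
      intro f m n
      apply Subtype.ext
      simp only [map_add, mul_add, Submodule.coe_add])
    (by
      intro c f n
      apply Subtype.ext
      simp only [map_smul, mul_smul_comm, Submodule.coe_smul])

lemma rep_apply (h : Fn k G) (m : piece e) :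
    ((rep q he h m : piece e) : MonoidAlgebra k L) = e * diag q h (m : MonoidAlgebra k L) := rfl

lemma key2 (hc : ∀ n, e * n = n * e) (l : Fn k G) (m : piece e) :
    (((∑ a : G, rep q he (pt a) * rep q he (anti (tr a l))) m : piece e) : MonoidAlgebra k L)
      = diag q l e * (m : MonoidAlgebra k L) := by
  have hm : e * (m : MonoidAlgebra k L) = m := m.2
  rw [LinearMap.sum_apply, Submodule.coe_sum]
  simp only [Module.End.mul_apply, rep_apply]
  rw [← Finset.mul_sum, key, ← mul_assoc, hc, mul_assoc, hm]

lemma rel_right (hc : ∀ n, e * n = n * e) (h l : Fn k G) :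
    rep q he h * ∑ a : G, rep q he (pt a) * rep q he (anti (tr a l))
      = ∑ a : G, rep q he (h * pt a) * rep q he (anti (tr a l)) := by
  apply LinearMap.ext
  intro m
  apply Subtype.ext
  rw [Module.End.mul_apply, rep_apply, key2 q he hc, LinearMap.sum_apply, Submodule.coe_sum]
  simp only [Module.End.mul_apply, rep_apply, diag_mul]
  rw [← Finset.mul_sum, ← map_sum, key]

lemma rel_left (hc : ∀ n, e * n = n * e) (h l : Fn k G) :
    (∑ a : G, rep q he (pt a) * rep q he (anti (tr a h))) * rep q he l
      = ∑ a : G, rep q he (pt a) * rep q he (anti (tr a h) * l) := by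
  apply LinearMap.ext
  intro m
  apply Subtype.ext
  rw [Module.End.mul_apply, key2 q he hc, rep_apply, LinearMap.sum_apply, Submodule.coe_sum]
  simp only [Module.End.mul_apply, rep_apply, diag_mul]
  rw [← Finset.mul_sum, key, ← mul_assoc, ← mul_assoc, hc]

/-- The corresponding homomorphism from the partial Hopf algebra. -/
noncomputable def Phi (hc : ∀ n, e * n = n * e) : Hpar k (Fn k G) →ₐ[k] Module.End k (piece e) :=
  RingQuot.liftAlgHom k ⟨TensorAlgebra.lift k (rep q he), by
    intro x y hxy
    cases hxy with
    | one =>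
      refine Eq.trans ?_ (map_one (TensorAlgebra.lift k (rep q he))).symm
      unfold gen
      rw [TensorAlgebra.lift_ι_apply]
      apply LinearMap.ext
      intro m
      apply Subtype.ext
      rw [rep_apply, diag_one]
      exact m.2
    | right h l =>
      simp only [conv_eq, map_mul, map_sum, gen, LinearMap.comp_apply, TensorAlgebra.lift_ι_apply,
        antipode_eq, LinearMap.mulLeft_apply]
      exact rel_right q he hc h l
    | left h l =>
      simp only [conv_eq, map_mul, map_sum, gen, LinearMap.comp_apply, TensorAlgebra.lift_ι_apply,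
        antipode_eq, LinearMap.mulRight_apply]
      exact rel_left q he hc h l⟩

/-- The class of a function in the partial Hopf algebra. -/
noncomputable def cls (h : Fn k G) : Hpar k (Fn k G) :=
  RingQuot.mkAlgHom k (Rel k (Fn k G)) (gen k (Fn k G) h)

lemma Phi_cls (hc : ∀ n, e * n = n * e) (h : Fn k G) :
    Phi q he hc (cls h) = rep q he h := by
  unfold Phi cls
  rw [RingQuot.liftAlgHom_mkAlgHom_apply]
  exact TensorAlgebra.lift_ι_apply _ _

/-- The element `[l₍₁₎][S(l₍₂₎)]` of the partial Hopf algebra. -/
noncomputable def eps (l : Fn k G) : Hpar k (Fn k G) :=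
  ∑ a : G, cls (pt a) * cls (anti (tr a l))

lemma Phi_eps (hc : ∀ n, e * n = n * e) (l : Fn k G) (m : piece e) :
    ((Phi q he hc (eps l) m : piece e) : MonoidAlgebra k L)
      = diag q l e * (m : MonoidAlgebra k L) := by
  unfold eps
  rw [map_sum]
  simp only [map_mul, Phi_cls]
  exact key2 q he hc l m

/-- Left multiplication by an element `z` of the kernel of the grading. -/
noncomputable def zop (hc : ∀ n, e * n = n * e) (z : L) : Module.End k (piece e) where
  toFun m := ⟨MonoidAlgebra.single z 1 * (m : MonoidAlgebra k L), by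
    change e * (_ * _) = _
    rw [← mul_assoc, hc, mul_assoc]
    congr 1
    exact m.2⟩
  map_add' a b := by
    apply Subtype.ext
    simp only [mul_add, Submodule.coe_add]
  map_smul' c a := by
    apply Subtype.ext
    simp only [mul_smul_comm, Submodule.coe_smul, RingHom.id_apply]

lemma zop_apply (hc : ∀ n, e * n = n * e) (z : L) (m : piece e) :
    ((zop hc z m : piece e) : MonoidAlgebra k L)
      = MonoidAlgebra.single z 1 * (m : MonoidAlgebra k L) := rfl

lemma diag_z (z : L) (hz : q z = 1) (h : Fn k G) (n : MonoidAlgebra k L) :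
    MonoidAlgebra.single z 1 * diag q h n = diag q h (MonoidAlgebra.single z 1 * n) := by
  induction n using MonoidAlgebra.induction_linear with
  | zero => simp only [map_zero, mul_zero]
  | add x y hx hy => simp only [map_add, mul_add, hx, hy]
  | single x c =>
    rw [diag_single, MonoidAlgebra.single_mul_single, MonoidAlgebra.single_mul_single, diag_single,
      map_mul, hz, one_mul, one_mul, one_mul]

lemma zop_comm_rep (hc : ∀ n, e * n = n * e) (z : L) (hz : q z = 1) (h : Fn k G) :
    zop hc z * rep q he h = rep q he h * zop hc z := by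
  apply LinearMap.ext
  intro m
  apply Subtype.ext
  rw [Module.End.mul_apply, Module.End.mul_apply, zop_apply, rep_apply, rep_apply, zop_apply,
    ← diag_z q z hz, ← mul_assoc, ← mul_assoc, hc]

lemma zop_comm (hc : ∀ n, e * n = n * e) (z : L) (hz : q z = 1) (x : Hpar k (Fn k G)) :
    zop hc z * Phi q he hc x = Phi q he hc x * zop hc z := by
  obtain ⟨t, rfl⟩ := RingQuot.mkAlgHom_surjective k (Rel k (Fn k G)) x
  induction t using TensorAlgebra.induction with
  | algebraMap r =>
    rw [AlgHom.commutes, AlgHom.commutes]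
    exact (Algebra.commutes r _).symm
  | ι h =>
    change zop hc z * Phi q he hc (cls h) = Phi q he hc (cls h) * zop hc z
    rw [Phi_cls]
    exact zop_comm_rep q he hc z hz h
  | mul a b ha hb =>
    rw [map_mul, map_mul, ← mul_assoc, ha, mul_assoc, hb, ← mul_assoc]
  | add a b ha hb =>
    rw [map_add, map_add, mul_add, add_mul, ha, hb]

/-- Semisimple rings are von Neumann regular. -/
lemma regular {A : Type*} [Ring A] [IsSemisimpleRing A] (x : A) : ∃ y, x * y * x = x := by
  obtain ⟨J, hJ⟩ := exists_isCompl (Submodule.span A {x})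
  have h1 : (1 : A) ∈ Submodule.span A {x} ⊔ J := by
    rw [hJ.sup_eq_top]
    trivial
  obtain ⟨a, ha, j, hj, hs⟩ := Submodule.mem_sup.mp h1
  obtain ⟨y, rfl⟩ := Submodule.mem_span_singleton.mp ha
  refine ⟨y, ?_⟩
  have h2 : x * j ∈ J := J.smul_mem x hj
  have h3 : x * j = x - x * y * x := by
    rw [eq_sub_iff_add_eq]
    calc x * j + x * y * x = x * (y • x + j) := by rw [mul_add, smul_eq_mul, mul_assoc]; abel
      _ = x := by rw [hs, mul_one]
  have h4 : x * j ∈ Submodule.span A {x} := by
    rw [h3]
    apply Submodule.sub_mem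
    · exact Submodule.mem_span_singleton_self x
    · exact Submodule.mem_span_singleton.mpr ⟨x * y, rfl⟩
  have h5 : x * j = 0 := by
    have := (Submodule.disjoint_def.mp hJ.disjoint) _ h4 h2
    exact this
  rw [h5] at h3
  exact (sub_eq_zero.mp h3.symm).symm

/-- If left multiplication by some `z` in the kernel of the grading is realised by the partial
Hopf algebra, and `z - 1` acts nilpotently but not as zero, then the partial Hopf algebra is not
semisimple. -/
lemma not_semisimple (hc : ∀ n, e * n = n * e) (z : L) (hz : q z = 1) (hz2 : z * z = 1)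
    (h2 : (2 : k) = 0) (hne : MonoidAlgebra.single z 1 * e ≠ e)
    (x : Hpar k (Fn k G)) (hx : Phi q he hc x = zop hc z) :
    ¬ IsSemisimpleRing (Hpar k (Fn k G)) := by
  intro hss
  obtain ⟨y, hy⟩ := regular (x - 1)
  have hy' := congrArg (Phi q he hc) hy
  rw [map_mul, map_mul, map_sub, map_one, hx] at hy'
  have hcomm := zop_comm q he hc z hz y
  have hcomm' : (zop hc z - 1) * Phi q he hc y = Phi q he hc y * (zop hc z - 1) := by
    apply LinearMap.ext
    intro m
    have h3 := congrArg (fun T : Module.End k (piece e) => T m) hcomm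
    simp only [Module.End.mul_apply] at h3
    rw [Module.End.mul_apply, Module.End.mul_apply, LinearMap.sub_apply, LinearMap.sub_apply,
      map_sub, h3]
    rfl
  rw [hcomm', mul_assoc] at hy'
  have hsq : (zop hc z - 1) * (zop hc z - 1) = 0 := by
    apply LinearMap.ext
    intro m
    apply Subtype.ext
    have e1 : ((zop hc z - 1) * (zop hc z - 1)) m
        = zop hc z (zop hc z m) - zop hc z m - (zop hc z m - m) := by
      rw [Module.End.mul_apply, LinearMap.sub_apply, LinearMap.sub_apply, map_sub]
      rfl
    rw [e1]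
    simp only [Submodule.coe_sub, zop_apply]
    rw [← mul_assoc, MonoidAlgebra.single_mul_single, hz2, mul_one, ← MonoidAlgebra.one_def,
      one_mul]
    generalize (m : MonoidAlgebra k L) = n
    generalize MonoidAlgebra.single z (1 : k) * n = n'
    have e2 : n + n = 0 := by
      rw [← two_smul k, h2, zero_smul]
    have e3 : n' + n' = 0 := by
      rw [← two_smul k, h2, zero_smul]
    have e4 : n - n' - (n' - n) = (n + n) - (n' + n') := by abel
    rw [e4, e2, e3, sub_zero]
    rfl
  rw [hsq, mul_zero] at hy'
  apply hne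
  have h3 := congrArg (fun T : Module.End k (piece e) => ((T ⟨e, he⟩ : piece e) :
    MonoidAlgebra k L)) hy'
  simp only [LinearMap.sub_apply, Submodule.coe_sub, zop_apply, LinearMap.zero_apply,
    Submodule.coe_zero, Module.End.one_apply] at h3
  exact sub_eq_zero.mp h3.symm

end Rep

/-! ### The group `SL(2,5)` in characteristic two -/

section Concrete

/-- The group `SL(2,5)`. -/
abbrev L5 : Type := Matrix.SpecialLinearGroup (Fin 2) (ZMod 5)

/-- The group `PSL(2,5)`. -/
abbrev G5 : Type := L5 ⧸ Subgroup.center L5

noncomputable instance : Fintype G5 := Fintype.ofFinite G5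
noncomputable instance : DecidableEq G5 := Classical.decEq G5

/-- Nontrivial elements of odd order, by their entries. -/
def goodB (a b c d : ZMod 5) : Bool :=
  a + d == 4 || (a + d == 2 && !(a == 1 && b == 0 && c == 0 && d == 1))

/-- Nontrivial elements of odd order. -/
def good (g : L5) : Prop := goodB (g.1 0 0) (g.1 0 1) (g.1 1 0) (g.1 1 1) = true

instance : DecidablePred good := fun g =>
  inferInstanceAs (Decidable (goodB (g.1 0 0) (g.1 0 1) (g.1 1 0) (g.1 1 1) = true))

def prs (p q r t : ZMod 5) : Finset (ZMod 5 × ZMod 5 × ZMod 5 × ZMod 5) :=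
  Finset.univ.filter (fun g => (g.1 * g.2.2.2 - g.2.1 * g.2.2.1 = 1 ∧
    goodB g.1 g.2.1 g.2.2.1 g.2.2.2 = true) ∧
    goodB (g.2.2.2 * p - g.2.1 * r) (g.2.2.2 * q - g.2.1 * t) (g.1 * r - g.2.2.1 * p)
      (g.1 * t - g.2.2.1 * q) = true)

set_option maxRecDepth 100000 in
lemma parity : ∀ p q r t : ZMod 5, p * t - q * r = 1 →
    (prs p q r t).card % 2 = if goodB p q r t then 1 else 0 := by decide +kernel

lemma goodB_iff (a b c d : ZMod 5) : goodB a b c d = true ↔
    a + d = 4 ∨ (a + d = 2 ∧ ¬ (a = 1 ∧ b = 0 ∧ c = 0 ∧ d = 1)) := by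
  unfold goodB
  simp [Bool.or_eq_true, Bool.and_eq_true, beq_iff_eq]
  tauto

lemma eq_one_iff (g : L5) : g = 1 ↔ (g.1 0 0 = 1 ∧ g.1 0 1 = 0 ∧ g.1 1 0 = 0 ∧ g.1 1 1 = 1) := by
  constructor
  · rintro rfl
    simp
  · rintro ⟨h1, h2, h3, h4⟩
    apply Subtype.ext
    ext i j
    fin_cases i <;> fin_cases j <;> simp [h1, h2, h3, h4]

lemma good_iff (g : L5) : good g ↔ g.1.trace = 4 ∨ (g.1.trace = 2 ∧ g ≠ 1) := by
  unfold good
  rw [goodB_iff, Matrix.trace_fin_two, Ne, eq_one_iff]

lemma good_conj (x g : L5) : good (x * g * x⁻¹) ↔ good g := by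
  rw [good_iff, good_iff]
  have h1 : (x * g * x⁻¹).1.trace = g.1.trace := by
    rw [Matrix.SpecialLinearGroup.coe_mul, Matrix.SpecialLinearGroup.coe_mul, Matrix.trace_mul_comm,
      ← mul_assoc, ← Matrix.SpecialLinearGroup.coe_mul, inv_mul_cancel,
      Matrix.SpecialLinearGroup.coe_one, one_mul]
  rw [h1, Ne, conj_eq_one_iff]

lemma inv_mul_entries (g x : L5) :
    (g⁻¹ * x).1 0 0 = g.1 1 1 * x.1 0 0 - g.1 0 1 * x.1 1 0 ∧
    (g⁻¹ * x).1 0 1 = g.1 1 1 * x.1 0 1 - g.1 0 1 * x.1 1 1 ∧
    (g⁻¹ * x).1 1 0 = g.1 0 0 * x.1 1 0 - g.1 1 0 * x.1 0 0 ∧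
    (g⁻¹ * x).1 1 1 = g.1 0 0 * x.1 1 1 - g.1 1 0 * x.1 0 1 := by
  have h : (g⁻¹ * x).1 = !![g.1 1 1, -g.1 0 1; -g.1 1 0, g.1 0 0] * x.1 := by
    rw [Matrix.SpecialLinearGroup.coe_mul, Matrix.SpecialLinearGroup.coe_inv,
      Matrix.adjugate_fin_two]
  rw [h]
  refine ⟨?_, ?_, ?_, ?_⟩ <;> simp [Matrix.mul_apply, Fin.sum_univ_two] <;> ring

lemma count (x : L5) :
    ((Finset.univ.filter good).filter (fun g => good (g⁻¹ * x))).card % 2
      = if good x then 1 else 0 := by
  have hdet : x.1 0 0 * x.1 1 1 - x.1 0 1 * x.1 1 0 = 1 := by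
    rw [← Matrix.det_fin_two]
    exact x.2
  have h := parity _ _ _ _ hdet
  have hcard : ((Finset.univ.filter good).filter (fun g => good (g⁻¹ * x))).card
      = (prs (x.1 0 0) (x.1 0 1) (x.1 1 0) (x.1 1 1)).card := by
    refine Finset.card_bij (fun g _ => (g.1 0 0, g.1 0 1, g.1 1 0, g.1 1 1)) ?_ ?_ ?_
    · intro g hg
      rw [Finset.mem_filter, Finset.mem_filter] at hg
      obtain ⟨⟨-, hg1⟩, hg2⟩ := hg
      obtain ⟨e1, e2, e3, e4⟩ := inv_mul_entries g x
      unfold good at hg1 hg2
      rw [e1, e2, e3, e4] at hg2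
      refine Finset.mem_filter.mpr ⟨Finset.mem_univ _, ⟨?_, hg1⟩, hg2⟩
      rw [← Matrix.det_fin_two]
      exact g.2
    · intro g _ g' _ hgg
      simp only [Prod.mk.injEq] at hgg
      obtain ⟨h1, h2, h3, h4⟩ := hgg
      apply Subtype.ext
      ext i j
      fin_cases i <;> fin_cases j <;> assumption
    · rintro ⟨a, b, c, d⟩ hm
      obtain ⟨-, ⟨hd, h1⟩, h2⟩ := Finset.mem_filter.mp hm
      simp only at hd h1 h2
      have hd' : (!![a, b; c, d] : Matrix (Fin 2) (Fin 2) (ZMod 5)).det = 1 := by
        rw [Matrix.det_fin_two_of]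
        exact hd
      refine ⟨⟨!![a, b; c, d], hd'⟩, ?_, by simp⟩
      refine Finset.mem_filter.mpr ⟨Finset.mem_filter.mpr ⟨Finset.mem_univ _, ?_⟩, ?_⟩
      · unfold good
        simpa using h1
      · obtain ⟨e1, e2, e3, e4⟩ := inv_mul_entries (⟨!![a, b; c, d], hd'⟩ : L5) x
        unfold good
        rw [e1, e2, e3, e4]
        simpa using h2
  rw [hcard, h]
  rfl

variable (k : Type u) [Field k]

/-- The idempotent: the sum of all nontrivial elements of odd order. -/
noncomputable def e5 : MonoidAlgebra k L5 :=
  ∑ g ∈ Finset.univ.filter good, MonoidAlgebra.single g (1 : k)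

lemma e5_central (n : MonoidAlgebra k L5) : e5 k * n = n * e5 k := by
  induction n using MonoidAlgebra.induction_linear with
  | zero => rw [mul_zero, zero_mul]
  | add x y hx hy => rw [mul_add, add_mul, hx, hy]
  | single x c =>
    unfold e5
    rw [Finset.sum_mul, Finset.mul_sum, Finset.sum_filter, Finset.sum_filter]
    symm
    refine Fintype.sum_equiv (MulAut.conj x).toEquiv _ _ (fun g => ?_)
    simp only [MulEquiv.toEquiv_eq_coe, EquivLike.coe_coe, MulAut.conj_apply, good_conj,
      MonoidAlgebra.single_mul_single, one_mul, mul_one, inv_mul_cancel_right]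

lemma e5_idem [CharP k 2] : e5 k * e5 k = e5 k := by
  calc e5 k * e5 k = ∑ g ∈ Finset.univ.filter good, ∑ h ∈ Finset.univ.filter good,
        MonoidAlgebra.single (g * h) (1 : k) := by
        unfold e5
        rw [Finset.sum_mul_sum]
        simp only [MonoidAlgebra.single_mul_single, one_mul]
    _ = ∑ g ∈ Finset.univ.filter good, ∑ x : L5,
        if good (g⁻¹ * x) then MonoidAlgebra.single x (1 : k) else 0 := by
        apply Finset.sum_congr rfl
        intro g _
        rw [Finset.sum_filter]
        refine Fintype.sum_equiv (Equiv.mulLeft g) _ _ (fun h => ?_)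
        simp only [Equiv.coe_mulLeft, inv_mul_cancel_left]
    _ = ∑ x : L5, ∑ g ∈ Finset.univ.filter good,
        if good (g⁻¹ * x) then MonoidAlgebra.single x (1 : k) else 0 := Finset.sum_comm
    _ = ∑ x : L5, if good x then MonoidAlgebra.single x (1 : k) else 0 := by
        apply Finset.sum_congr rfl
        intro x _
        rw [← Finset.sum_filter, Finset.sum_const]
        have h := count x
        have h2 : ((((Finset.univ.filter good).filter (fun g => good (g⁻¹ * x))).card : ℕ) : k)
            = if good x then 1 else 0 := by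
          rw [CharP.cast_eq_mod k 2, h]
          split_ifs <;> simp
        rw [← Nat.cast_smul_eq_nsmul k, h2]
        split_ifs
        · rw [one_smul]
        · rw [zero_smul]
    _ = e5 k := by
        unfold e5
        rw [Finset.sum_filter]

lemma e5_coeff (x : L5) : (e5 k).coeff x = if good x then 1 else 0 := by
  unfold e5
  rw [MonoidAlgebra.coeff_sum, Finsupp.finsetSum_apply, Finset.sum_filter,
    Finset.sum_eq_single x]
  · rw [MonoidAlgebra.coeff_single, Finsupp.single_eq_same]
  · intro b _ hb
    rw [MonoidAlgebra.coeff_single, Finsupp.single_apply, if_neg hb]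
    split_ifs <;> rfl
  · intro h
    exact absurd (Finset.mem_univ _) h

/-- The projection of `SL(2,5)` to `PSL(2,5)`. -/
def q5 : L5 →* G5 := QuotientGroup.mk' (Subgroup.center L5)

/-- The central involution. -/
def z5 : L5 := ⟨!![4, 0; 0, 4], by decide⟩

lemma q5_z5 : q5 z5 = 1 := by
  rw [q5, QuotientGroup.mk'_apply, QuotientGroup.eq_one_iff,
    Matrix.SpecialLinearGroup.mem_center_iff]
  refine ⟨4, by decide, ?_⟩
  ext i j
  fin_cases i <;> fin_cases j <;> decide

lemma z5_sq : z5 * z5 = 1 := by
  apply Subtype.ext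
  decide

lemma goodB_neg : ∀ a b c d : ZMod 5, goodB a b c d = true →
    goodB (4 * a) (4 * b) (4 * c) (4 * d) = false := by decide +kernel

lemma q5_inj (x g : L5) (hx : good x) (hg : good g) (h : q5 x = q5 g) : x = g := by
  rw [q5, QuotientGroup.mk'_apply, QuotientGroup.mk'_apply, QuotientGroup.eq,
    Matrix.SpecialLinearGroup.mem_center_iff] at h
  obtain ⟨r, hr, hs⟩ := h
  have hr' : r = 1 ∨ r = 4 := by
    have hk : ∀ r : ZMod 5, r ^ Fintype.card (Fin 2) = 1 → r = 1 ∨ r = 4 := by decide
    exact hk r hr
  have hg' : g.1 = x.1 * Matrix.scalar (Fin 2) r := by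
    rw [hs, ← Matrix.SpecialLinearGroup.coe_mul, mul_inv_cancel_left]
  rcases hr' with rfl | rfl
  · apply Subtype.ext
    rw [hg', map_one, mul_one]
  · exfalso
    have h1 := goodB_neg _ _ _ _ hx
    unfold good at hg
    rw [hg'] at hg
    simp [Matrix.mul_apply, Fin.sum_univ_two, Matrix.scalar_apply, mul_comm] at hg
    rw [hg] at h1
    exact Bool.noConfusion h1

lemma diag_e5 (g : L5) (hg : good g) :
    diag q5 (pt (q5 g)) (e5 k) = MonoidAlgebra.single g 1 := by
  unfold e5
  rw [map_sum, Finset.sum_eq_single g]
  · rw [diag_single, pt_apply, if_pos rfl, one_mul]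
  · intro x hx hxg
    rw [diag_single, pt_apply, if_neg, zero_mul, MonoidAlgebra.single_zero]
    intro h
    exact hxg (q5_inj x g (Finset.mem_filter.mp hx).2 hg h)
  · intro h
    exact absurd (Finset.mem_filter.mpr ⟨Finset.mem_univ _, hg⟩) h

def g1 : L5 := ⟨!![0, 1; 4, 2], by decide⟩
def g2 : L5 := ⟨!![0, 1; 4, 4], by decide⟩
def g3 : L5 := ⟨!![3, 4; 3, 1], by decide⟩

lemma good1 : good g1 := by decide
lemma good2 : good g2 := by decide
lemma good3 : good g3 := by decide

lemma prod_g : g1 * (g2 * g3) = z5 := by
  apply Subtype.ext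
  decide

end Concrete

/-- Over every field of characteristic two there is a semisimple Hopf algebra whose partial Hopf
algebra is not semisimple. -/
theorem result (k : Type u) [Field k] [CharP k 2] :
    ∃ (H : Type u) (_ : Ring H) (_ : HopfAlgebra k H),
      Module.Finite k H ∧ IsSemisimpleRing H ∧ ¬ IsSemisimpleRing (Hpar k H) := by
  refine ⟨Fn k G5, inferInstance, inferInstance, ?_, semisimple_fn, ?_⟩
  · exact inferInstanceAs (Module.Finite k (G5 → k))
  have h2 : (2 : k) = 0 := CharTwo.two_eq_zero
  refine not_semisimple q5 (e5_idem k) (e5_central k) z5 q5_z5 z5_sq h2 ?_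
    (eps (pt (q5 g1)) * (eps (pt (q5 g2)) * eps (pt (q5 g3)))) ?_
  · intro h
    have h3 := congrArg (fun n : MonoidAlgebra k L5 => n.coeff g1) h
    simp only [MonoidAlgebra.coeff_single_mul_apply, e5_coeff, one_mul] at h3
    rw [if_pos good1, if_neg (by decide)] at h3
    exact one_ne_zero h3.symm
  · apply LinearMap.ext
    intro m
    apply Subtype.ext
    rw [map_mul, map_mul, Module.End.mul_apply, Module.End.mul_apply, Phi_eps, Phi_eps, Phi_eps,
      diag_e5 k g1 good1, diag_e5 k g2 good2, diag_e5 k g3 good3, ← mul_assoc, ← mul_assoc,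
      MonoidAlgebra.single_mul_single, MonoidAlgebra.single_mul_single, one_mul, one_mul,
      mul_assoc, prod_g]
    rfl

end Pool.Agent.Results.MP_57c94c_al.CharTwo
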